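import Pool.Agent.W787.KG.Defs

/-!
Project KG (helper787), DA1: the transform of the Gaussian data.
-/

open MeasureTheory Set Metric Filter Topology Real
open scoped ContDiff

noncomputable section

namespace Pool.Agent.W179.KG

open Pool.Agent.W787.KG

/-- one-dimensional factor -/
def F (c t : ℝ) (z : ℝ) : ℂ :=
  Complex.exp ((-(c : ℂ)) * (z : ℂ) ^ 2 + (Complex.I * (t : ℂ)) * (z : ℂ) + 0)

theorem F_int (c t : ℝ) (hc : 0 < c) : Integrable (F c t) :=
  integrable_cexp_quadratic' (by simpa using hc) _ _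

theorem F_val (c t : ℝ) (hc : 0 < c) :
    ∫ z, F c t z = ((Real.sqrt (π / c) * Real.exp (-(t ^ 2) / (4 * c)) : ℝ) : ℂ) := by
  have h := integral_cexp_quadratic (b := (-(c : ℂ))) (by simpa using hc) (Complex.I * (t : ℂ)) 0
  unfold F
  rw [h, Complex.ofReal_mul]
  congr 1
  · rw [neg_neg, Real.sqrt_eq_rpow, Complex.ofReal_cpow (by positivity)]
    push_cast
    rfl
  · rw [Complex.ofReal_exp]
    congr 1
    push_cast
    have hc' : (c : ℂ) ≠ 0 := by exact_mod_cast hc.ne'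
    have h1 : (Complex.I * (t : ℂ)) ^ 2 = -((t : ℂ) ^ 2) := by
      rw [mul_pow, Complex.I_sq]
      ring
    rw [h1]
    field_simp
    ring

theorem inner_E (ξ x : E) : inner ℝ ξ x = ξ 0 * x 0 + ξ 1 * x 1 + ξ 2 * x 2 := by
  rw [PiLp.inner_apply, Fin.sum_univ_three]
  simp only [RCLike.inner_apply, conj_trivial]
  ring

theorem da1 (h3 : S_PR) : S_DA1 := by
  intro A L hA hL
  refine ⟨?_, ?_, ?_⟩
  · unfold f0
    fun_prop
  · intro ξ
    unfold f0
    simp
  · intro x
    have hL0 : 0 < L := by linarith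
    obtain ⟨h4, h5⟩ := h3.2 (F 1 (x 0)) (F 1 (x 1)) (F (L ^ 2) (x 2)) (F_int _ _ one_pos)
      (F_int _ _ one_pos) (F_int _ _ (by positivity))
    have h6 : ∀ ξ : E, Real.cos (inner ℝ ξ x) * f0 A L ξ =
        RCLike.re (((A * L : ℝ) : ℂ) * (F 1 (x 0) (ξ 0) * F 1 (x 1) (ξ 1) *
          F (L ^ 2) (x 2) (ξ 2))) := by
      intro ξ
      have h7 : F 1 (x 0) (ξ 0) * F 1 (x 1) (ξ 1) * F (L ^ 2) (x 2) (ξ 2) =
          ((Real.exp (-(ξ 0) ^ 2 - (ξ 1) ^ 2 - L ^ 2 * (ξ 2) ^ 2) : ℝ) : ℂ) *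
            Complex.exp (((inner ℝ ξ x : ℝ) : ℂ) * Complex.I) := by
        unfold F
        rw [← Complex.exp_add, ← Complex.exp_add, Complex.ofReal_exp, ← Complex.exp_add, inner_E]
        congr 1
        push_cast
        ring
      rw [h7]
      show _ = Complex.re _
      rw [← mul_assoc, ← Complex.ofReal_mul, Complex.re_ofReal_mul, Complex.exp_ofReal_mul_I_re]
      unfold f0
      ring
    unfold CT
    rw [integral_congr_ae (Filter.Eventually.of_forall h6), integral_re (h4.const_mul _),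
      integral_const_mul, h5, F_val _ _ one_pos, F_val _ _ one_pos, F_val _ _ (by positivity),
      ← Complex.ofReal_mul, ← Complex.ofReal_mul, ← Complex.ofReal_mul]
    have h10 : ∀ r : ℝ, RCLike.re ((r : ℝ) : ℂ) = r := fun r => Complex.ofReal_re r
    rw [h10]
    unfold n0
    have h8 : Real.sqrt (π / L ^ 2) = Real.sqrt π / L := by
      rw [Real.sqrt_div (by positivity), Real.sqrt_sq hL0.le]
    have h9 : Real.exp (-((x 0) ^ 2 + (x 1) ^ 2) / 4 - (x 2) ^ 2 / (4 * L ^ 2)) =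
        Real.exp (-(x 0 ^ 2) / (4 * 1)) * Real.exp (-(x 1 ^ 2) / (4 * 1)) *
          Real.exp (-(x 2 ^ 2) / (4 * L ^ 2)) := by
      rw [← Real.exp_add, ← Real.exp_add]
      congr 1
      ring
    rw [h8, h9, div_one]
    field_simp

end Pool.Agent.W179.KG
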